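import Pool.Agent.Helper17.BC.Gn
import Pool.Agent.H99.BC.Close

/-!
# Project BC, block GLOB: the facts of hyperbolic geometry
-/

set_option autoImplicit false

open Real
open scoped MatrixGroups UpperHalfPlane

namespace Pool.Agent.Helper17.BC

open Pool.Agent.Helper11.BC (G GP pos SameEnd Generic Sys Neck gam Ahead Behind vert)
open Pool.Agent.H99.BC

/-! ### the projection -/

open Classical in
/-- the parameter of the projection of `g • ∞` to the line of `n`, cut to `[α, β]` -/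
noncomputable def prj (α β : ℝ) (n g : G) : ℝ :=
  if (n⁻¹ * g) 1 0 = 0 then β
  else if (n⁻¹ * g) 0 0 = 0 then α
  else cp α β (log (|(n⁻¹ * g) 0 0| / |(n⁻¹ * g) 1 0|))

theorem prj_mem {α β : ℝ} (h : α ≤ β) (n g : G) : α ≤ prj α β n g ∧ prj α β n g ≤ β := by
  unfold prj
  split_ifs
  · exact ⟨h, le_rfl⟩
  · exact ⟨le_rfl, h⟩
  · exact ⟨cp_ge, cp_le h⟩

theorem prj_ahead (α β b : ℝ) (n g : G) (h1 : α < b) (h3 : b ≤ prj α β n g) :
    Ahead n b g := by
  unfold prj at h3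
  unfold Ahead
  split_ifs at h3 with hy hx
  · rw [hy, abs_zero, zero_mul]
    exact abs_nonneg _
  · exact absurd h3 (not_le.2 h1)
  · have hy' : 0 < |(n⁻¹ * g) 1 0| := abs_pos.2 hy
    have hx' : 0 < |(n⁻¹ * g) 0 0| := abs_pos.2 hx
    have h4 := h3.trans (cp_le_of_lt (h1.trans_le h3))
    rw [le_log_iff_exp_le (by positivity), le_div_iff₀ hy'] at h4
    linarith

theorem prj_behind (α β a : ℝ) (n g : G) (h2 : a < β) (h3 : prj α β n g ≤ a) :
    Behind n a g := by
  unfold prj at h3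
  unfold Behind
  split_ifs at h3 with hy hx
  · exact absurd h3 (not_le.2 h2)
  · rw [hx, abs_zero]
    positivity
  · have hy' : 0 < |(n⁻¹ * g) 1 0| := abs_pos.2 hy
    have hx' : 0 < |(n⁻¹ * g) 0 0| := abs_pos.2 hx
    have h4 := (le_cp_of_lt (h3.trans_lt h2)).trans h3
    rw [log_le_iff_le_exp (by positivity), div_le_iff₀ hy'] at h4
    linarith

theorem prj_cut (α β α' β' : ℝ) (n g : G) (h1 : α ≤ α') (h2 : α' ≤ β') (h3 : β' ≤ β) :
    cp α' β' (prj α β n g) = prj α' β' n g := by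
  unfold prj
  split_ifs
  · unfold cp
    rw [min_eq_left h3, max_eq_right h2]
  · unfold cp
    rw [min_eq_right (h1.trans h2), max_eq_left h1]
  · unfold cp
    rw [min_max_distrib_left, min_eq_right (h1.trans h2), ← max_assoc, max_eq_left h1,
      ← min_assoc, min_eq_left h3]

theorem prj_smul (α β : ℝ) (h n g : G) : prj α β (h * n) (h * g) = prj α β n g := by
  unfold prj
  rw [mul_inv_rev, mul_assoc, inv_mul_cancel_left]

/-! ### entries of the transition between two frames -/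

/-- `2 cosh` of the distance of two points, in terms of the transition -/
noncomputable def nq (M : G) (τ τ' : ℝ) : ℝ :=
  M 0 0 ^ 2 * exp (τ' - τ) + M 0 1 ^ 2 * exp (-(τ + τ')) + M 1 0 ^ 2 * exp (τ + τ') +
    M 1 1 ^ 2 * exp (τ - τ')

theorem nq_eq (n n' : G) (τ τ' : ℝ) : nq (n⁻¹ * n') τ τ' = 2 * cosh (dist (gam n τ) (gam n' τ')) := by
  rw [gam_eq, gam_eq, dist_pos, cosh_dist_I]
  obtain ⟨M, hM⟩ : ∃ M, M = n⁻¹ * n' := ⟨_, rfl⟩
  have h0 : (n * dg τ)⁻¹ * (n' * dg τ') = (dg τ)⁻¹ * (M * dg τ') := by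
    rw [hM]
    group
  rw [h0, ← hM]
  have d00 : ∀ σ, (dg σ) 0 0 = exp (σ / 2) := fun _ => rfl
  have d01 : ∀ σ, (dg σ) 0 1 = 0 := fun _ => rfl
  have d10 : ∀ σ, (dg σ) 1 0 = 0 := fun _ => rfl
  have d11 : ∀ σ, (dg σ) 1 1 = exp (-σ / 2) := fun _ => rfl
  unfold nsq nq
  simp only [mul00, mul01, mul10, mul11, inv00, inv01, inv10, inv11, d00, d01, d10, d11]
  have e1 : exp (τ' - τ) = (exp (-τ / 2) * exp (τ' / 2)) ^ 2 := by
    rw [← exp_add, ← exp_nat_mul]
    congr 1
    push_cast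
    ring
  have e2 : exp (-(τ + τ')) = (exp (-τ / 2) * exp (-τ' / 2)) ^ 2 := by
    rw [← exp_add, ← exp_nat_mul]
    congr 1
    push_cast
    ring
  have e3 : exp (τ + τ') = (exp (τ / 2) * exp (τ' / 2)) ^ 2 := by
    rw [← exp_add, ← exp_nat_mul]
    congr 1
    push_cast
    ring
  have e4 : exp (τ - τ') = (exp (τ / 2) * exp (-τ' / 2)) ^ 2 := by
    rw [← exp_add, ← exp_nat_mul]
    congr 1
    push_cast
    ring
  rw [e1, e2, e3, e4]
  ring

theorem nq_le (n n' : G) (τ τ' : ℝ) :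
    nq (n⁻¹ * n') τ τ' ≤ 2 * exp (dist (gam n τ) (gam n' τ')) := by
  rw [nq_eq, cosh_eq]
  have h0 : (0 : ℝ) ≤ dist (gam n τ) (gam n' τ') := dist_nonneg
  have : exp (-dist (gam n τ) (gam n' τ')) ≤ exp (dist (gam n τ) (gam n' τ')) :=
    exp_le_exp.2 (by linarith)
  linarith

theorem le_nq (n n' : G) (τ τ' : ℝ) :
    exp (dist (gam n τ) (gam n' τ')) ≤ nq (n⁻¹ * n') τ τ' := by
  rw [nq_eq, cosh_eq]
  have := exp_pos (-dist (gam n τ) (gam n' τ'))
  linarith

theorem fellow : ∀ C₀ : ℝ, ∃ K₀ : ℝ, ∀ (n n' : G) (α β α' β' : ℝ), α ≤ β → α' ≤ β' →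
    dist (gam n α) (gam n' α') ≤ C₀ → dist (gam n β) (gam n' β') ≤ C₀ →
    ∀ x, 0 ≤ x → α + x ≤ β → α' + x ≤ β' → dist (gam n (α + x)) (gam n' (α' + x)) ≤ K₀ := by
  intro C₀
  refine ⟨C₀ + log 4, fun n n' α β α' β' _ _ h1 h2 x hx hb hb' => ?_⟩
  have n1 := (nq_le n n' α α').trans (mul_le_mul_of_nonneg_left (exp_le_exp.2 h1) (by norm_num))
  have n2 := (nq_le n n' β β').trans (mul_le_mul_of_nonneg_left (exp_le_exp.2 h2) (by norm_num))
  have n3 := le_nq n n' (α + x) (α' + x)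
  set M := n⁻¹ * n'
  unfold nq at n1 n2 n3
  have k1 : α' + x - (α + x) = α' - α := by ring
  have k2 : α + x - (α' + x) = α - α' := by ring
  rw [k1, k2] at n3
  have k3 : exp (-(α + x + (α' + x))) ≤ exp (-(α + α')) := exp_le_exp.2 (by linarith)
  have k4 : exp (α + x + (α' + x)) ≤ exp (β + β') := exp_le_exp.2 (by linarith)
  have k5 := mul_le_mul_of_nonneg_left k3 (sq_nonneg (M 0 1))
  have k6 := mul_le_mul_of_nonneg_left k4 (sq_nonneg (M 1 0))
  have p1 : 0 ≤ M 1 0 ^ 2 * exp (α + α') := by positivity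
  have p2 : 0 ≤ M 0 0 ^ 2 * exp (β' - β) := by positivity
  have p3 : 0 ≤ M 0 1 ^ 2 * exp (-(β + β')) := by positivity
  have p4 : 0 ≤ M 1 1 ^ 2 * exp (β - β') := by positivity
  have h3 : exp (dist (gam n (α + x)) (gam n' (α' + x))) ≤ 4 * exp C₀ := by linarith
  rw [← exp_le_exp, exp_add, exp_log (by norm_num)]
  linarith

/-- two lines through one point -/
theorem comp {n n' : G} {α α' a x y : ℝ} (h : gam n α = gam n' α') (ha : 0 ≤ a)
    (hxy : 2 * a = x + y - dist (gam n (α + x)) (gam n' (α' + y))) :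
    dist (gam n (α + a)) (gam n' (α' + a)) ≤ log 4 := by
  have n1 := nq_eq n n' α α'
  rw [h, dist_self, cosh_zero, mul_one] at n1
  have n2 := nq_le n n' (α + x) (α' + y)
  have n3 := le_nq n n' (α + a) (α' + a)
  set M := n⁻¹ * n'
  set D := dist (gam n (α + x)) (gam n' (α' + y))
  unfold nq at n1 n2 n3
  have k1 : α' + a - (α + a) = α' - α := by ring
  have k2 : α + a - (α' + a) = α - α' := by ring
  rw [k1, k2] at n3
  have p0 : 0 ≤ M 1 0 ^ 2 * exp (α + α') := by positivity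
  have p2 : 0 ≤ M 0 0 ^ 2 * exp (α' + y - (α + x)) := by positivity
  have p3 : 0 ≤ M 0 1 ^ 2 * exp (-(α + x + (α' + y))) := by positivity
  have p4 : 0 ≤ M 1 1 ^ 2 * exp (α + x - (α' + y)) := by positivity
  have k3 : exp (-(α + a + (α' + a))) ≤ exp (-(α + α')) := exp_le_exp.2 (by linarith)
  have k5 := mul_le_mul_of_nonneg_left k3 (sq_nonneg (M 0 1))
  have k6 : M 1 0 ^ 2 * exp (α + a + (α' + a)) ≤ 2 := by
    have e1 : exp (α + a + (α' + a)) = exp (α + x + (α' + y)) * exp (-D) := by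
      rw [← exp_add]
      congr 1
      linarith
    have e2 : M 1 0 ^ 2 * exp (α + x + (α' + y)) ≤ 2 * exp D := by linarith
    have e3 := mul_le_mul_of_nonneg_right e2 (exp_pos (-D)).le
    rw [mul_assoc 2, ← exp_add, add_neg_cancel, exp_zero, mul_one] at e3
    rw [e1, ← mul_assoc]
    exact e3
  rw [← exp_le_exp, exp_log (by norm_num)]
  linarith

theorem centre : ∃ K₀ : ℝ, ∀ (s t u : ℍ) (n₁ n₂ n₃ : G), gam n₁ 0 = s → gam n₁ (dist s t) = t →
    gam n₂ 0 = t → gam n₂ (dist t u) = u → gam n₃ 0 = u → gam n₃ (dist u s) = s →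
    ∃ (o : ℍ) (a b c : ℝ), 0 ≤ a ∧ a ≤ dist s t ∧ 0 ≤ b ∧ b ≤ dist t u ∧ 0 ≤ c ∧ c ≤ dist u s ∧
      dist o (gam n₁ a) ≤ K₀ ∧ dist o (gam n₂ b) ≤ K₀ ∧ dist o (gam n₃ c) ≤ K₀ := by
  refine ⟨log 4, fun s t u n₁ n₂ n₃ h1 h1' h2 h2' h3 h3' => ?_⟩
  have t1 := dist_triangle s t u
  have t2 := dist_triangle t u s
  have t3 := dist_triangle u s t
  rw [dist_comm s u] at t1
  rw [dist_comm t s] at t2
  rw [dist_comm u t] at t3
  have l4 : 0 ≤ log 4 := log_nonneg (by norm_num)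
  refine ⟨gam n₁ ((dist s t + dist u s - dist t u) / 2), (dist s t + dist u s - dist t u) / 2,
    (dist s t + dist t u - dist u s) / 2, (dist t u + dist u s - dist s t) / 2,
    by linarith, by linarith, by linarith, by linarith, by linarith, by linarith,
    by rwa [dist_self], ?_, ?_⟩
  · have h := comp (n := n₂) (n' := n₁ * Helper11.BC.flip) (α := 0) (α' := -(dist s t))
      (a := (dist s t + dist t u - dist u s) / 2) (x := dist t u) (y := dist s t)
      (by rw [gam_flip, neg_neg, h2, h1']) (by linarith)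
      (by rw [gam_flip, zero_add, h2', neg_add_cancel, neg_zero, h1]; ring)
    rw [zero_add, gam_flip, dist_comm] at h
    have e : -(-(dist s t) + (dist s t + dist t u - dist u s) / 2) =
        (dist s t + dist u s - dist t u) / 2 := by ring
    rwa [e] at h
  · have h := comp (n := n₁) (n' := n₃ * Helper11.BC.flip) (α := 0) (α' := -(dist u s))
      (a := (dist s t + dist u s - dist t u) / 2) (x := dist s t) (y := dist u s)
      (by rw [gam_flip, neg_neg, h1, h3']) (by linarith)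
      (by rw [gam_flip, zero_add, h1', neg_add_cancel, neg_zero, h3]; ring)
    rw [zero_add, gam_flip] at h
    have e : -(-(dist u s) + (dist s t + dist u s - dist t u) / 2) =
        (dist t u + dist u s - dist s t) / 2 := by ring
    rwa [e] at h

/-! ### frames -/

theorem eq_vert {z : ℍ} (h : z.re = 0) : z = vert (log z.im) := by
  apply UpperHalfPlane.ext
  apply Complex.ext
  · exact h
  · show z.im = exp (log z.im)
    rw [exp_log z.im_pos]

/-- the rotation about the point `I` -/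
noncomputable def rot (θ : ℝ) : G := ⟨!![cos θ, -sin θ; sin θ, cos θ], by
  rw [Matrix.det_fin_two_of]
  have := cos_sq_add_sin_sq θ
  nlinarith⟩

theorem rot_I (θ : ℝ) : rot θ • UpperHalfPlane.I = UpperHalfPlane.I := by
  have h := four_sinh_sq (rot θ)
  have h00 : (rot θ) 0 0 = cos θ := rfl
  have h01 : (rot θ) 0 1 = -sin θ := rfl
  have h10 : (rot θ) 1 0 = sin θ := rfl
  have h11 : (rot θ) 1 1 = cos θ := rfl
  rw [h00, h01, h10, h11] at h
  have h2 : 2 * sinh (dist UpperHalfPlane.I (rot θ • UpperHalfPlane.I) / 2) = 0 := by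
    apply pow_eq_zero_iff (two_ne_zero) |>.1
    rw [h]
    ring
  have h3 : sinh (dist UpperHalfPlane.I (rot θ • UpperHalfPlane.I) / 2) = 0 := by linarith
  rw [sinh_eq_zero] at h3
  exact (dist_eq_zero.1 (by linarith)).symm

theorem exists_rot (M : G) : ∃ k : G, k • UpperHalfPlane.I = UpperHalfPlane.I ∧
    ((k * M) • UpperHalfPlane.I : ℍ).re = 0 := by
  obtain ⟨P, hP⟩ : ∃ P, P = (M 0 0 ^ 2 + M 0 1 ^ 2 - M 1 0 ^ 2 - M 1 1 ^ 2) / 2 := ⟨_, rfl⟩
  obtain ⟨Q, hQ⟩ : ∃ Q, Q = M 0 0 * M 1 0 + M 0 1 * M 1 1 := ⟨_, rfl⟩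
  obtain ⟨w, hw⟩ : ∃ w : ℂ, w = ⟨-P, Q⟩ := ⟨_, rfl⟩
  refine ⟨rot (Complex.arg w / 2), rot_I _, ?_⟩
  rw [re_smul_I, mul00, mul10, mul01, mul11]
  have h00 : ∀ θ, (rot θ) 0 0 = cos θ := fun _ => rfl
  have h01 : ∀ θ, (rot θ) 0 1 = -sin θ := fun _ => rfl
  have h10 : ∀ θ, (rot θ) 1 0 = sin θ := fun _ => rfl
  have h11 : ∀ θ, (rot θ) 1 1 = cos θ := fun _ => rfl
  rw [h00, h01, h10, h11, div_eq_zero_iff]
  left
  have e1 : sin (Complex.arg w) = 2 * sin (Complex.arg w / 2) * cos (Complex.arg w / 2) := by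
    rw [← sin_two_mul]
    congr 1
    ring
  have e2 : cos (Complex.arg w) = cos (Complex.arg w / 2) ^ 2 - sin (Complex.arg w / 2) ^ 2 := by
    rw [← cos_two_mul']
    congr 1
    ring
  have e3 : sin (Complex.arg w) * P + cos (Complex.arg w) * Q = 0 := by
    rcases eq_or_ne w 0 with h0 | h0
    · rw [hw] at h0
      have h4 : -P = 0 := congrArg Complex.re h0
      have h5 : Q = 0 := congrArg Complex.im h0
      rw [h5, neg_eq_zero.1 h4]
      ring
    · rw [Complex.sin_arg, Complex.cos_arg h0, hw]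
      show Q / _ * P + -P / _ * Q = 0
      ring
  rw [e1, e2, hP, hQ] at e3
  linear_combination e3

theorem frame_exists (s t : ℍ) : ∃ n : G, gam n 0 = s ∧ gam n (dist s t) = t := by
  have v0 : vert 0 = UpperHalfPlane.I := by
    apply UpperHalfPlane.ext
    apply Complex.ext
    · rfl
    · show exp 0 = 1
      exact exp_zero
  obtain ⟨k, hk, hk'⟩ := exists_rot (s.toSL2R⁻¹ * t.toSL2R)
  obtain ⟨r, hr⟩ : ∃ r, (k * (s.toSL2R⁻¹ * t.toSL2R)) • UpperHalfPlane.I = vert r :=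
    ⟨_, eq_vert hk'⟩
  have g0 : gam (s.toSL2R * k⁻¹) 0 = s := by
    unfold gam
    rw [v0, mul_smul, inv_smul_eq_iff.2 hk.symm, UpperHalfPlane.toSL2R_smul_I]
  have g1 : gam (s.toSL2R * k⁻¹) r = t := by
    unfold gam
    rw [← hr, mul_smul, mul_smul, inv_smul_smul, mul_smul, smul_inv_smul,
      UpperHalfPlane.toSL2R_smul_I]
  have hd : dist s t = |r| := by
    rw [← g0, ← g1, dist_gam, zero_sub, abs_neg]
  rcases le_total 0 r with h | h
  · exact ⟨_, g0, by rw [hd, abs_of_nonneg h]; exact g1⟩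
  · refine ⟨s.toSL2R * k⁻¹ * Helper11.BC.flip, ?_, ?_⟩
    · rw [gam_flip, neg_zero, g0]
    · rw [gam_flip, hd, abs_of_nonpos h, neg_neg, g1]

/-! ### projections in two frames -/

theorem prj_num {C₀ α β α' β' p p' x y M00 M01 M10 M11 : ℝ} (hC₀ : 0 ≤ C₀)
    (hlen : -(2 * C₀) ≤ (β - α) - (β' - α') ∧ (β - α) - (β' - α') ≤ 2 * C₀)
    (m2 : p ≤ β) (m1' : α' ≤ p')
    (hcon : 2 * C₀ + 6 < p + (α' - α) - p') (ha : |y| * exp p ≤ |x|) (hx0 : x ≠ 0)
    (hb : |M11 * x - M01 * y| ≤ |-M10 * x + M00 * y| * exp p')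
    (n1 : M00 ^ 2 * exp (α' - α) + M01 ^ 2 * exp (-(α + α')) + M10 ^ 2 * exp (α + α') +
      M11 ^ 2 * exp (α - α') ≤ 2 * exp C₀)
    (n2 : M00 ^ 2 * exp (β' - β) + M01 ^ 2 * exp (-(β + β')) + M10 ^ 2 * exp (β + β') +
      M11 ^ 2 * exp (β - β') ≤ 2 * exp C₀)
    (hdet : M00 * M11 - M01 * M10 = 1) : False := by
  obtain ⟨R, hR⟩ : ∃ R, R = p + (α' - α) - p' := ⟨_, rfl⟩
  rw [← hR] at hcon
  obtain ⟨δ, hδ⟩ : ∃ δ, δ = α' - α := ⟨_, rfl⟩
  obtain ⟨u, hu⟩ : ∃ u, u = |M00| * exp (δ / 2) := ⟨_, rfl⟩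
  obtain ⟨v, hv⟩ : ∃ v, v = |M01| * exp (-((α + α') / 2)) := ⟨_, rfl⟩
  obtain ⟨w, hw⟩ : ∃ w, w = |M10| * exp ((β + β') / 2) := ⟨_, rfl⟩
  obtain ⟨z, hz⟩ : ∃ z, z = |M11| * exp (-(δ / 2)) := ⟨_, rfl⟩
  have hu0 : 0 ≤ u := by rw [hu]; positivity
  have hv0 : 0 ≤ v := by rw [hv]; positivity
  have hw0 : 0 ≤ w := by rw [hw]; positivity
  have hz0 : 0 ≤ z := by rw [hz]; positivity
  obtain ⟨E, hE⟩ : ∃ E, E = exp C₀ := ⟨_, rfl⟩
  have hE1 : 1 ≤ E := by rw [hE]; exact one_le_exp hC₀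
  rw [← hE] at n1 n2
  have sq2 : ∀ r : ℝ, exp r ^ 2 = exp (2 * r) := fun r => by
    rw [← exp_nat_mul]
    norm_num
  have hu2 : u ^ 2 ≤ 2 * E := by
    rw [hu, mul_pow, sq_abs, sq2, show 2 * (δ / 2) = α' - α by rw [hδ]; ring]
    have q1 : 0 ≤ M01 ^ 2 * exp (-(α + α')) := by positivity
    have q2 : 0 ≤ M10 ^ 2 * exp (α + α') := by positivity
    have q3 : 0 ≤ M11 ^ 2 * exp (α - α') := by positivity
    linarith
  have hv2 : v ^ 2 ≤ 2 * E := by
    rw [hv, mul_pow, sq_abs, sq2, show 2 * -((α + α') / 2) = -(α + α') by ring]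
    have q1 : 0 ≤ M00 ^ 2 * exp (α' - α) := by positivity
    have q2 : 0 ≤ M10 ^ 2 * exp (α + α') := by positivity
    have q3 : 0 ≤ M11 ^ 2 * exp (α - α') := by positivity
    linarith
  have hw2 : w ^ 2 ≤ 2 * E := by
    rw [hw, mul_pow, sq_abs, sq2, show 2 * ((β + β') / 2) = β + β' by ring]
    have q1 : 0 ≤ M00 ^ 2 * exp (β' - β) := by positivity
    have q2 : 0 ≤ M01 ^ 2 * exp (-(β + β')) := by positivity
    have q3 : 0 ≤ M11 ^ 2 * exp (β - β') := by positivity
    linarith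
  have huv : u * v ≤ 2 * E := by nlinarith [sq_nonneg (u - v)]
  have huw : u * w ≤ 2 * E := by nlinarith [sq_nonneg (u - w)]
  have hvw : v * w ≤ 2 * E := by nlinarith [sq_nonneg (v - w)]
  -- the small number
  have he6 : E ^ 2 * exp (-R) ≤ 1 / 64 := by
    have q1 : E ^ 2 * exp (-R) = exp (2 * C₀ - R) := by
      rw [hE, sq2, ← exp_add]
      congr 1
    have q2 : exp (2 * C₀ - R) ≤ exp (-6) := exp_le_exp.2 (by linarith)
    have q3 : exp (-6 : ℝ) ≤ 1 / 64 := by
      rw [exp_neg, inv_eq_one_div]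
      apply one_div_le_one_div_of_le (by norm_num)
      have h3 : exp (6 : ℝ) = exp 1 ^ 6 := by
        rw [← exp_nat_mul]
        norm_num
      rw [h3]
      have h4 := add_one_le_exp (1 : ℝ)
      calc (64 : ℝ) = 2 ^ 6 := by norm_num
        _ ≤ exp 1 ^ 6 := pow_le_pow_left₀ (by norm_num) (by linarith) 6
    rw [q1]
    exact q2.trans q3
  have hER : E * exp (-R) = exp (C₀ - R) := by
    rw [hE, ← exp_add]
    congr 1
  -- the determinant
  have huz : 1 / 2 ≤ u * z := by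
    have q1 : u * z = |M00 * M11| := by
      have : exp (δ / 2) * exp (-(δ / 2)) = 1 := by
        rw [← exp_add, add_neg_cancel, exp_zero]
      rw [hu, hz, abs_mul]
      linear_combination (|M00| * |M11|) * this
    have q2 : |M01 * M10| = v * w * exp (-(((β - α) + (β' - α')) / 2)) := by
      have : exp (-((α + α') / 2)) * exp ((β + β') / 2) *
          exp (-(((β - α) + (β' - α')) / 2)) = 1 := by
        rw [← exp_add, ← exp_add, ← exp_zero]
        congr 1
        ring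
      rw [hv, hw, abs_mul]
      linear_combination -(|M01| * |M10|) * this
    have q3 : exp (-(((β - α) + (β' - α')) / 2)) ≤ E * exp (-R) := by
      rw [hER]
      exact exp_le_exp.2 (by linarith)
    have q4 : |M01 * M10| ≤ 1 / 2 := by
      rw [q2]
      calc v * w * exp (-(((β - α) + (β' - α')) / 2)) ≤ 2 * E * (E * exp (-R)) :=
            mul_le_mul hvw q3 (exp_pos _).le (by linarith)
        _ = 2 * (E ^ 2 * exp (-R)) := by ring
        _ ≤ 1 / 2 := by linarith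
    have q5 : M00 * M11 = 1 + M01 * M10 := by linarith
    rw [q1, q5]
    have := abs_le.1 q4
    have := le_abs_self (1 + M01 * M10)
    linarith
  -- the main inequality
  have hxp : 0 < |x| := abs_pos.2 hx0
  have hy : |y| ≤ |x| * exp (-p) := by
    have := mul_le_mul_of_nonneg_right ha (exp_pos (-p)).le
    rwa [mul_assoc, ← exp_add, add_neg_cancel, exp_zero, mul_one] at this
  have key : |M11| ≤ |M01| * exp (-p) + (|M10| + |M00| * exp (-p)) * exp p' := by
    have q1 : |M11| * |x| ≤ |M11 * x - M01 * y| + |M01| * |y| := by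
      rw [← abs_mul, ← abs_mul]
      have := abs_sub_abs_le_abs_sub (M11 * x) (M01 * y)
      linarith
    have q2 : |-M10 * x + M00 * y| ≤ |M10| * |x| + |M00| * |y| := by
      refine (abs_add_le _ _).trans ?_
      rw [abs_mul, abs_mul, abs_neg]
    have q3 : |M01| * |y| ≤ |M01| * (|x| * exp (-p)) := mul_le_mul_of_nonneg_left hy (abs_nonneg _)
    have q4 : |M00| * |y| ≤ |M00| * (|x| * exp (-p)) := mul_le_mul_of_nonneg_left hy (abs_nonneg _)
    have q5 : |-M10 * x + M00 * y| * exp p' ≤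
        (|M10| * |x| + |M00| * (|x| * exp (-p))) * exp p' :=
      mul_le_mul_of_nonneg_right (by linarith) (exp_pos _).le
    have q6 : |M11| * |x| ≤
        (|M01| * exp (-p) + (|M10| + |M00| * exp (-p)) * exp p') * |x| := by
      calc |M11| * |x| ≤ (|M10| * |x| + |M00| * (|x| * exp (-p))) * exp p' +
            |M01| * (|x| * exp (-p)) := by linarith
        _ = _ := by ring
    exact le_of_mul_le_mul_right q6 hxp
  have hzle : z ≤ (u + v + w) * (E * exp (-R)) := by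
    have q1 := mul_le_mul_of_nonneg_right key (exp_pos (-(δ / 2))).le
    rw [← hz] at q1
    have q2 : |M01| * exp (-p) * exp (-(δ / 2)) = v * exp (α - p) := by
      have : exp (-p) * exp (-(δ / 2)) = exp (-((α + α') / 2)) * exp (α - p) := by
        rw [← exp_add, ← exp_add]
        congr 1
        rw [hδ]
        ring
      rw [hv]
      linear_combination |M01| * this
    have q3 : |M10| * exp p' * exp (-(δ / 2)) =
        w * exp (p' - δ / 2 - (β + β') / 2) := by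
      have : exp p' * exp (-(δ / 2)) =
          exp ((β + β') / 2) * exp (p' - δ / 2 - (β + β') / 2) := by
        rw [← exp_add, ← exp_add]
        congr 1
        ring
      rw [hw]
      linear_combination |M10| * this
    have q4 : |M00| * exp (-p) * exp p' * exp (-(δ / 2)) = u * exp (-R) := by
      have : exp (-p) * exp p' * exp (-(δ / 2)) = exp (δ / 2) * exp (-R) := by
        rw [← exp_add, ← exp_add, ← exp_add]
        congr 1
        rw [hR, hδ]
        ring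
      rw [hu]
      linear_combination |M00| * this
    have r1 : exp (α - p) ≤ E * exp (-R) := by
      rw [hER]
      exact exp_le_exp.2 (by linarith)
    have r2 : exp (p' - δ / 2 - (β + β') / 2) ≤ E * exp (-R) := by
      rw [hER]
      exact exp_le_exp.2 (by linarith)
    have r3 : exp (-R) ≤ E * exp (-R) := by
      have := exp_pos (-R)
      nlinarith
    calc z ≤ (|M01| * exp (-p) + (|M10| + |M00| * exp (-p)) * exp p') * exp (-(δ / 2)) := q1
      _ = |M01| * exp (-p) * exp (-(δ / 2)) + |M10| * exp p' * exp (-(δ / 2)) +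
          |M00| * exp (-p) * exp p' * exp (-(δ / 2)) := by ring
      _ = v * exp (α - p) + w * exp (p' - δ / 2 - (β + β') / 2) + u * exp (-R) := by
          rw [q2, q3, q4]
      _ ≤ v * (E * exp (-R)) + w * (E * exp (-R)) + u * (E * exp (-R)) :=
          add_le_add (add_le_add (mul_le_mul_of_nonneg_left r1 hv0)
            (mul_le_mul_of_nonneg_left r2 hw0)) (mul_le_mul_of_nonneg_left r3 hu0)
      _ = (u + v + w) * (E * exp (-R)) := by ring
  have hfin := mul_le_mul_of_nonneg_left hzle hu0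
  have f1 : u * ((u + v + w) * (E * exp (-R))) = (u ^ 2 + u * v + u * w) * (E * exp (-R)) := by
    ring
  have f2 : (u ^ 2 + u * v + u * w) * (E * exp (-R)) ≤ 6 * E * (E * exp (-R)) :=
    mul_le_mul_of_nonneg_right (by linarith) (by positivity)
  have f3 : 6 * E * (E * exp (-R)) = 6 * (E ^ 2 * exp (-R)) := by ring
  linarith

theorem prj_one {C₀ : ℝ} {n n' : G} {α β α' β' : ℝ} (g : G) (h1 : α ≤ β) (h1' : α' ≤ β')
    (hα : dist (gam n α) (gam n' α') ≤ C₀) (hβ : dist (gam n β) (gam n' β') ≤ C₀) :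
    prj α β n g + (α' - α) - prj α' β' n' g ≤ 2 * C₀ + 6 := by
  by_contra hcon
  push Not at hcon
  have hC₀ : 0 ≤ C₀ := dist_nonneg.trans hα
  have hlen := abs_le.1 (close_len h1 h1' hα hβ)
  obtain ⟨m1, m2⟩ := prj_mem h1 n g
  obtain ⟨m1', m2'⟩ := prj_mem h1' n' g
  have ha : Ahead n (prj α β n g) g := prj_ahead α β _ n g (by linarith) le_rfl
  have hb : Behind n' (prj α' β' n' g) g := prj_behind α' β' _ n' g (by linarith) le_rfl
  have n1 := (nq_le n n' α α').trans (mul_le_mul_of_nonneg_left (exp_le_exp.2 hα) (by norm_num))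
  have n2 := (nq_le n n' β β').trans (mul_le_mul_of_nonneg_left (exp_le_exp.2 hβ) (by norm_num))
  have hx0 := ahead_ne ha
  have hdet := det_eq (n⁻¹ * n')
  have hg : n'⁻¹ * g = (n⁻¹ * n')⁻¹ * (n⁻¹ * g) := by group
  have ex : (n'⁻¹ * g) 0 0 = (n⁻¹ * n') 1 1 * (n⁻¹ * g) 0 0 - (n⁻¹ * n') 0 1 * (n⁻¹ * g) 1 0 := by
    rw [hg, mul00, inv00, inv01]
    ring
  have ey : (n'⁻¹ * g) 1 0 = -(n⁻¹ * n') 1 0 * (n⁻¹ * g) 0 0 + (n⁻¹ * n') 0 0 * (n⁻¹ * g) 1 0 := by
    rw [hg, mul10, inv10, inv11]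
  unfold Ahead at ha
  unfold Behind at hb
  rw [ex, ey] at hb
  exact prj_num hC₀ hlen m2 m1' hcon ha hx0 hb n1 n2 hdet

theorem prj_close : ∀ C₀ : ℝ, ∃ K₀ : ℝ, ∀ (n n' : G) (α β α' β' : ℝ) (g : G), α ≤ β → α' ≤ β' →
    dist (gam n α) (gam n' α') ≤ C₀ → dist (gam n β) (gam n' β') ≤ C₀ →
    |prj α β n g + (α' - α) - prj α' β' n' g| ≤ K₀ := by
  intro C₀
  refine ⟨2 * C₀ + 6, fun n n' α β α' β' g h1 h1' hα hβ => ?_⟩
  have e1 := prj_one g h1 h1' hα hβ
  have e2 := prj_one (C₀ := C₀) (n := n') (n' := n) g h1' h1 (by rwa [dist_comm])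
    (by rwa [dist_comm])
  rw [abs_le]
  constructor <;> linarith

/-- the facts of hyperbolic geometry -/
noncomputable def geoFacts : GeoFacts where
  prj := prj
  ahead := fun α β b n g h1 _ h3 => prj_ahead α β b n g h1 h3
  behind := fun α β a n g _ h2 h3 => prj_behind α β a n g h2 h3
  prj_cp := prj_cut
  prj_inv := prj_smul
  prj_close := prj_close
  gam_dist := dist_gam
  fellow := fellow
  fr := fun s t => (frame_exists s t).choose
  fr_zero := fun s t => (frame_exists s t).choose_spec.1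
  fr_dist := fun s t => (frame_exists s t).choose_spec.2
  rev := fun n => ⟨n * Helper11.BC.flip, gam_flip n⟩
  centre := centre

end Pool.Agent.Helper17.BC
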