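import Pool.Agent.Helper17.BC.Glob
import Pool.Agent.Helper17.BC.Geo

/-!
# Project BC, block GLOB: the primitive of the cocycle on generic tuples
-/

set_option autoImplicit false

namespace Pool.Agent.Helper17.BC

open Pool.Agent.Helper11.BC

theorem main_of_neck {N : ℕ} (hN : 2 ≤ N) (S : Sys N) (K : Neck S) :
    ∃ (ψ : List G → ℝ) (M : ℝ), (∀ Y, Generic Y → Y.length = N + 1 → |ψ Y| ≤ M) ∧
      (∀ (g : G) Y, ψ (Y.map (g * ·)) = ψ Y) ∧
      ∀ W, Generic W → W.length = N + 2 → Helper11.BC.dl ψ W = S.fW (W.map GP.int) :=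
  main_of_geo geoFacts hN S K

end Pool.Agent.Helper17.BC
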