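import Mathlib

/-!
# Project BC (MP_6f8b02_al), block GLOB: sums over the types of a list of cut points

`S q Φ α β C` cuts the interval `[α, β]` at the numbers `q c`, `c ∈ C`, and adds `Φ D a b` over the pieces
`[a, b]`; `D` is the list `C` in which each `c` carries the mark `true` (the piece is before the cut
point of `c`, i.e. `b ≤ q c`) or `false` (`q c ≤ a`).
-/

set_option autoImplicit false

namespace Pool.Agent.Helper17.BC

variable {X Y : Type*}

/-- the number `q` clamped to `[α, β]` -/
noncomputable def cp (α β q : ℝ) : ℝ := max α (min β q)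

theorem cp_ge {α β q : ℝ} : α ≤ cp α β q := le_max_left _ _

theorem cp_le {α β q : ℝ} (h : α ≤ β) : cp α β q ≤ β := max_le h (min_le_left _ _)

theorem le_cp_of_lt {α β q : ℝ} (h : cp α β q < β) : q ≤ cp α β q := by
  unfold cp at *
  rcases le_total β q with h1 | h1
  · rw [min_eq_left h1] at h
    exact absurd (le_max_right α β) (not_le.2 h)
  · rw [min_eq_right h1]
    exact le_max_right _ _

theorem cp_le_of_lt {α β q : ℝ} (h : α < cp α β q) : cp α β q ≤ q := by
  unfold cp at *
  rcases le_total (min β q) α with h1 | h1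
  · rw [max_eq_left h1] at h
    exact absurd h (lt_irrefl _)
  · rw [max_eq_right h1]
    exact min_le_right _ _

/-- the signed sum over all ways to omit one entry of the list -/
def dl : (List Y → ℝ) → List Y → ℝ
  | _, [] => 0
  | Φ, x :: D => Φ D - dl (fun D' => Φ (x :: D')) D

theorem dl_add (Φ Ψ : List Y → ℝ) (D : List Y) :
    dl (fun D => Φ D + Ψ D) D = dl Φ D + dl Ψ D := by
  induction D generalizing Φ Ψ with
  | nil => simp [dl]
  | cons x D ih =>
    simp only [dl]
    rw [ih]
    ring

theorem dl_sub (Φ Ψ : List Y → ℝ) (D : List Y) :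
    dl (fun D => Φ D - Ψ D) D = dl Φ D - dl Ψ D := by
  induction D generalizing Φ Ψ with
  | nil => simp [dl]
  | cons x D ih =>
    simp only [dl]
    rw [ih]
    ring

theorem dl_mul (r : ℝ) (Φ : List Y → ℝ) (D : List Y) :
    dl (fun D => r * Φ D) D = r * dl Φ D := by
  induction D generalizing Φ with
  | nil => simp [dl]
  | cons x D ih =>
    simp only [dl]
    rw [ih]
    ring

theorem dl_dl (Φ : List Y → ℝ) (D : List Y) : dl (dl Φ) D = 0 := by
  induction D generalizing Φ with
  | nil => rfl
  | cons x D ih =>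
    have h1 : dl (dl Φ) (x :: D) = dl Φ D - dl (fun D' => dl Φ (x :: D')) D := rfl
    have h2 : (fun D' => dl Φ (x :: D')) = fun D' => Φ D' - dl (fun D'' => Φ (x :: D'')) D' := rfl
    rw [h1, h2, dl_sub, ih]
    ring

theorem dl_congr {Φ Ψ : List Y → ℝ} {D : List Y}
    (h : ∀ D' : List Y, D'.length + 1 = D.length → D' ⊆ D → Φ D' = Ψ D') : dl Φ D = dl Ψ D := by
  induction D generalizing Φ Ψ with
  | nil => rfl
  | cons x D ih =>
    simp only [dl]
    rw [h D (by simp) (List.subset_cons_self x D)]
    congr 1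
    refine ih fun D' h1 h2 => h (x :: D') (by simp only [List.length_cons]; omega) ?_
    exact List.cons_subset_cons x h2

theorem dl_map {Z : Type*} (f : Z → Y) (Φ : List Y → ℝ) (D : List Z) :
    dl (fun D' : List Z => Φ (D'.map f)) D = dl Φ (D.map f) := by
  induction D generalizing Φ with
  | nil => rfl
  | cons x D ih =>
    simp only [dl, List.map_cons]
    rw [ih (fun D' => Φ (f x :: D'))]

/-- interval functions which are additive -/
def AddI (Φ : List (X × Bool) → ℝ → ℝ → ℝ) : Prop :=
  ∀ D a b c, a ≤ b → b ≤ c → Φ D a c = Φ D a b + Φ D b c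

theorem AddI.self {Φ : List (X × Bool) → ℝ → ℝ → ℝ} (h : AddI Φ) (D : List (X × Bool)) (a : ℝ) :
    Φ D a a = 0 := by
  have := h D a a a le_rfl le_rfl
  linarith

theorem AddI.cons {Φ : List (X × Bool) → ℝ → ℝ → ℝ} (h : AddI Φ) (x : X × Bool) :
    AddI (fun D => Φ (x :: D)) := fun D => h (x :: D)

/-- the sum over all pieces -/
noncomputable def S (q : X → ℝ) : (List (X × Bool) → ℝ → ℝ → ℝ) → ℝ → ℝ → List X → ℝ
  | Φ, α, β, [] => Φ [] α β
  | Φ, α, β, c :: C =>
    S q (fun D => Φ ((c, false) :: D)) (cp α β (q c)) β C +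
      S q (fun D => Φ ((c, true) :: D)) α (cp α β (q c)) C

variable {q q' : X → ℝ} {Φ Ψ : List (X × Bool) → ℝ → ℝ → ℝ}

theorem S_self (h : AddI Φ) (α : ℝ) (C : List X) : S q Φ α α C = 0 := by
  induction C generalizing Φ with
  | nil => exact h.self _ _
  | cons c C ih =>
    have h1 : cp α α (q c) = α := le_antisymm (cp_le le_rfl) cp_ge
    simp only [S, h1]
    rw [ih (h.cons _), ih (h.cons _), add_zero]

theorem S_add_fun (α β : ℝ) (C : List X) :
    S q (fun D a b => Φ D a b + Ψ D a b) α β C = S q Φ α β C + S q Ψ α β C := by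
  induction C generalizing Φ Ψ α β with
  | nil => rfl
  | cons c C ih =>
    simp only [S]
    rw [ih, ih]
    ring

theorem S_sub_fun (α β : ℝ) (C : List X) :
    S q (fun D a b => Φ D a b - Ψ D a b) α β C = S q Φ α β C - S q Ψ α β C := by
  induction C generalizing Φ Ψ α β with
  | nil => rfl
  | cons c C ih =>
    simp only [S]
    rw [ih, ih]
    ring

theorem S_add (h : AddI Φ) {α β γ : ℝ} (h1 : α ≤ β) (h2 : β ≤ γ) (C : List X) :
    S q Φ α γ C = S q Φ α β C + S q Φ β γ C := by
  induction C generalizing Φ α β γ with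
  | nil => exact h _ _ _ _ h1 h2
  | cons c C ih =>
    simp only [S]
    rcases le_total (q c) β with hq | hq
    · have e1 : cp α γ (q c) = cp α β (q c) := by
        unfold cp
        rw [min_eq_right (hq.trans h2), min_eq_right hq]
      have e2 : cp β γ (q c) = β := by
        unfold cp
        rw [max_eq_left]
        exact (min_le_right _ _).trans hq
      rw [e1, e2, S_self (h.cons _), add_zero,
        ih (h.cons (c, false)) (cp_le h1 : cp α β (q c) ≤ β) h2]
      ring
    · have e1 : cp α β (q c) = β := by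
        unfold cp
        rw [min_eq_left hq, max_eq_right h1]
      have e2 : cp α γ (q c) = cp β γ (q c) := by
        unfold cp
        have h3 : β ≤ min γ (q c) := le_min h2 hq
        rw [max_eq_right h3, max_eq_right (h1.trans h3)]
      rw [e1, e2, S_self (h.cons _), zero_add,
        ih (h.cons (c, true)) h1 (cp_ge : β ≤ cp β γ (q c))]
      ring

/-- the pieces cover the interval -/
theorem S_const {h : ℝ → ℝ → ℝ} (hh : ∀ a b c, a ≤ b → b ≤ c → h a c = h a b + h b c) {α β : ℝ}
    (h1 : α ≤ β) (C : List X) : S q (fun _ => h) α β C = h α β := by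
  induction C generalizing α β with
  | nil => rfl
  | cons c C ih =>
    simp only [S]
    rw [ih (cp_le h1), ih cp_ge, hh α _ β cp_ge (cp_le h1)]
    ring

/-- sums over the pieces and omission of entries -/
theorem S_dl (h : AddI Φ) {α β : ℝ} (h1 : α ≤ β) (C : List X) :
    S q (fun D a b => dl (fun D' => Φ D' a b) D) α β C = dl (fun C' => S q Φ α β C') C := by
  induction C generalizing Φ α β with
  | nil => rfl
  | cons c C ih =>
    have e1 : ∀ (m : Bool) (a b : ℝ), a ≤ b →
        S q (fun D a b => dl (fun D' => Φ D' a b) ((c, m) :: D)) a b C =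
        S q Φ a b C - dl (fun C' => S q (fun D => Φ ((c, m) :: D)) a b C') C := by
      intro m a b hab
      have e2 : (fun (D : List (X × Bool)) (a b : ℝ) => dl (fun D' => Φ D' a b) ((c, m) :: D)) =
          fun D a b => Φ D a b - dl (fun D' => Φ ((c, m) :: D') a b) D := rfl
      rw [e2, S_sub_fun, ih (h.cons (c, m)) hab]
    simp only [S]
    rw [e1 false _ _ (cp_le h1), e1 true _ _ cp_ge]
    have e3 : dl (fun C' => S q Φ α β C') (c :: C) = S q Φ α β C -
        dl (fun C' => S q (fun D => Φ ((c, false) :: D)) (cp α β (q c)) β C' +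
          S q (fun D => Φ ((c, true) :: D)) α (cp α β (q c)) C') C := rfl
    rw [e3, dl_add, S_add h (cp_ge : α ≤ cp α β (q c)) (cp_le h1)]
    ring

/-- the marks are right -/
def Val (q : X → ℝ) (D : List (X × Bool)) (a b : ℝ) : Prop :=
  ∀ x ∈ D, (x.2 = false → q x.1 ≤ a) ∧ (x.2 = true → b ≤ q x.1)

theorem Val.nil (q : X → ℝ) (a b : ℝ) : Val q ([] : List (X × Bool)) a b := by
  intro x hx
  simp at hx

theorem Val.cons_false {D : List (X × Bool)} {a b : ℝ} {c : X} (h : Val q D a b) (hc : q c ≤ a) :
    Val q ((c, false) :: D) a b := by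
  intro x hx
  rcases List.mem_cons.1 hx with rfl | hx
  · exact ⟨fun _ => hc, fun h => by simp at h⟩
  · exact h x hx

theorem Val.cons_true {D : List (X × Bool)} {a b : ℝ} {c : X} (h : Val q D a b) (hc : b ≤ q c) :
    Val q ((c, true) :: D) a b := by
  intro x hx
  rcases List.mem_cons.1 hx with rfl | hx
  · exact ⟨fun h => by simp at h, fun _ => hc⟩
  · exact h x hx

theorem S_bound {α β K : ℝ} (hK : 0 ≤ K) (h1 : α ≤ β) (C : List X) (h0 : ∀ D a, Φ D a a = 0)
    (h : ∀ D a b, D.map Prod.fst = C → α ≤ a → a < b → b ≤ β → Val q D a b → |Φ D a b| ≤ K) :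
    |S q Φ α β C| ≤ 2 ^ C.length * K := by
  induction C generalizing Φ α β with
  | nil =>
    simp only [S, List.length_nil, pow_zero, one_mul]
    rcases h1.eq_or_lt with rfl | h1
    · rw [h0, abs_zero]
      exact hK
    · exact h [] α β rfl le_rfl h1 le_rfl (Val.nil _ _ _)
  | cons c C ih =>
    simp only [S, List.length_cons]
    have e1 := ih (Φ := fun D => Φ ((c, false) :: D)) (cp_le h1 : cp α β (q c) ≤ β)
      (fun D a => h0 _ _) fun D a b hD ha hab hb hv =>
        h _ a b (by simp [hD]) (cp_ge.trans ha) hab hb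
          (hv.cons_false ((le_cp_of_lt (ha.trans_lt (hab.trans_le hb))).trans ha))
    have e2 := ih (Φ := fun D => Φ ((c, true) :: D)) (cp_ge : α ≤ cp α β (q c))
      (fun D a => h0 _ _) fun D a b hD ha hab hb hv =>
        h _ a b (by simp [hD]) ha hab (hb.trans (cp_le h1))
          (hv.cons_true (hb.trans (cp_le_of_lt ((ha.trans_lt hab).trans_le hb))))
    calc _ ≤ _ := abs_add_le _ _
      _ ≤ 2 ^ C.length * K + 2 ^ C.length * K := add_le_add e1 e2
      _ = 2 ^ (C.length + 1) * K := by ring

private theorem max_shift {δ R a a' b b' : ℝ} (h1 : |a + δ - a'| ≤ R) (h2 : |b + δ - b'| ≤ R) :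
    |max a b + δ - max a' b'| ≤ R := by
  rw [abs_le] at *
  constructor
  · rcases max_choice a' b' with h | h <;> rw [h]
    · linarith [le_max_left a b, h1.1]
    · linarith [le_max_right a b, h2.1]
  · rcases max_choice a b with h | h <;> rw [h]
    · linarith [le_max_left a' b', h1.2]
    · linarith [le_max_right a' b', h2.2]

private theorem min_shift {δ R a a' b b' : ℝ} (h1 : |a + δ - a'| ≤ R) (h2 : |b + δ - b'| ≤ R) :
    |min a b + δ - min a' b'| ≤ R := by
  rw [abs_le] at *
  constructor
  · rcases min_choice a b with h | h <;> rw [h]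
    · linarith [min_le_left a' b', h1.1]
    · linarith [min_le_right a' b', h2.1]
  · rcases min_choice a' b' with h | h <;> rw [h]
    · linarith [min_le_left a b, h1.2]
    · linarith [min_le_right a b, h2.2]

theorem cp_cp_left {α β κ q : ℝ} (h1 : α ≤ κ) :
    cp κ β q = max κ (cp α β q) := by
  unfold cp
  rw [← max_assoc, max_eq_left h1]

theorem cp_cp_right {α β κ q : ℝ} (h1 : α ≤ κ) (h2 : κ ≤ β) :
    cp α κ q = min κ (cp α β q) := by
  unfold cp
  rw [min_max_distrib_left, min_eq_right h1, ← min_assoc, min_eq_left h2]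

/-- comparison of two sums -/
theorem S_compare {α β α' β' δ R K : ℝ} (h1 : α ≤ β) (h1' : α' ≤ β') (C : List X)
    (hα : |α + δ - α'| ≤ R) (hβ : |β + δ - β'| ≤ R)
    (hq : ∀ c ∈ C, |cp α β (q c) + δ - cp α' β' (q' c)| ≤ R)
    (h : ∀ D a b a' b', D.map Prod.fst = C → α ≤ a → a ≤ b → b ≤ β → α' ≤ a' → a' ≤ b' → b' ≤ β' →
      |a + δ - a'| ≤ R → |b + δ - b'| ≤ R → (a < b → Val q D a b) → (a' < b' → Val q' D a' b') →
      |Φ D a b - Ψ D a' b'| ≤ K) :
    |S q Φ α β C - S q' Ψ α' β' C| ≤ 2 ^ C.length * K := by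
  induction C generalizing Φ Ψ α β α' β' with
  | nil =>
    simp only [S, List.length_nil, pow_zero, one_mul]
    exact h [] α β α' β' rfl le_rfl h1 le_rfl le_rfl h1' le_rfl hα hβ (fun _ => Val.nil _ _ _)
      (fun _ => Val.nil _ _ _)
  | cons c C ih =>
    simp only [S, List.length_cons]
    have hc := hq c (List.mem_cons_self)
    have e1 := ih (Φ := fun D => Φ ((c, false) :: D)) (Ψ := fun D => Ψ ((c, false) :: D))
      (cp_le h1 : cp α β (q c) ≤ β) (cp_le h1' : cp α' β' (q' c) ≤ β') hc hβ
      (fun x hx => by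
        rw [cp_cp_left (cp_ge : α ≤ cp α β (q c)),
          cp_cp_left (cp_ge : α' ≤ cp α' β' (q' c))]
        exact max_shift hc (hq x (List.mem_cons_of_mem c hx)))
      (fun D a b a' b' hD ha hab hb ha' hab' hb' hr1 hr2 hv hv' =>
        h _ a b a' b' (by simp [hD]) (cp_ge.trans ha) hab hb (cp_ge.trans ha') hab' hb' hr1 hr2
          (fun hlt => (hv hlt).cons_false
            ((le_cp_of_lt (ha.trans_lt (hlt.trans_le hb))).trans ha))
          (fun hlt => (hv' hlt).cons_false
            ((le_cp_of_lt (ha'.trans_lt (hlt.trans_le hb'))).trans ha')))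
    have e2 := ih (Φ := fun D => Φ ((c, true) :: D)) (Ψ := fun D => Ψ ((c, true) :: D))
      (cp_ge : α ≤ cp α β (q c)) (cp_ge : α' ≤ cp α' β' (q' c)) hα hc
      (fun x hx => by
        rw [cp_cp_right (cp_ge : α ≤ cp α β (q c)) (cp_le h1),
          cp_cp_right (cp_ge : α' ≤ cp α' β' (q' c)) (cp_le h1')]
        exact min_shift hc (hq x (List.mem_cons_of_mem c hx)))
      (fun D a b a' b' hD ha hab hb ha' hab' hb' hr1 hr2 hv hv' =>
        h _ a b a' b' (by simp [hD]) ha hab (hb.trans (cp_le h1)) ha' hab' (hb'.trans (cp_le h1'))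
          hr1 hr2
          (fun hlt => (hv hlt).cons_true
            (hb.trans (cp_le_of_lt ((ha.trans_lt hlt).trans_le hb))))
          (fun hlt => (hv' hlt).cons_true
            (hb'.trans (cp_le_of_lt ((ha'.trans_lt hlt).trans_le hb')))))
    calc _ = |(S q (fun D => Φ ((c, false) :: D)) (cp α β (q c)) β C -
          S q' (fun D => Ψ ((c, false) :: D)) (cp α' β' (q' c)) β' C) +
          (S q (fun D => Φ ((c, true) :: D)) α (cp α β (q c)) C -
          S q' (fun D => Ψ ((c, true) :: D)) α' (cp α' β' (q' c)) C)| := by congr 1; ring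
      _ ≤ _ := abs_add_le _ _
      _ ≤ 2 ^ C.length * K + 2 ^ C.length * K := add_le_add e1 e2
      _ = 2 ^ (C.length + 1) * K := by ring

/-- only the clamped cut points matter -/
theorem S_congr_cut (hΦ : AddI Φ) {α β : ℝ} (h1 : α ≤ β) (C : List X)
    (h : ∀ c ∈ C, cp α β (q c) = cp α β (q' c)) : S q Φ α β C = S q' Φ α β C := by
  induction C generalizing Φ α β with
  | nil => rfl
  | cons c C ih =>
    simp only [S]
    have hc := h c (List.mem_cons_self)
    rw [hc]
    rw [ih (hΦ.cons _) (cp_le h1) fun x hx => by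
        rw [cp_cp_left (cp_ge : α ≤ cp α β (q' c)),
          cp_cp_left (cp_ge : α ≤ cp α β (q' c)), h x (List.mem_cons_of_mem c hx)],
      ih (hΦ.cons _) cp_ge fun x hx => by
        rw [cp_cp_right (cp_ge : α ≤ cp α β (q' c)) (cp_le h1),
          cp_cp_right (cp_ge : α ≤ cp α β (q' c)) (cp_le h1), h x (List.mem_cons_of_mem c hx)]]

/-- change of the interval functions on the pieces which occur -/
theorem S_congr_fun {α β : ℝ} (C : List X)
    (h : ∀ D a b, D.map Prod.fst = C → Φ D a b = Ψ D a b) : S q Φ α β C = S q Ψ α β C := by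
  induction C generalizing Φ Ψ α β with
  | nil => exact h [] α β rfl
  | cons c C ih =>
    simp only [S]
    rw [ih fun D a b hD => h ((c, false) :: D) a b (by simp [hD]),
      ih fun D a b hD => h ((c, true) :: D) a b (by simp [hD])]

/-- shift of the parameter -/
theorem S_shift (δ α β : ℝ) (C : List X) :
    S (fun c => q c + δ) Φ (α + δ) (β + δ) C =
      S q (fun D a b => Φ D (a + δ) (b + δ)) α β C := by
  induction C generalizing Φ α β with
  | nil => rfl
  | cons c C ih =>
    have e : cp (α + δ) (β + δ) (q c + δ) = cp α β (q c) + δ := by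
      unfold cp
      rw [min_add_add_right, max_add_add_right]
    simp only [S, e]
    rw [ih (Φ := fun D => Φ ((c, false) :: D)), ih (Φ := fun D => Φ ((c, true) :: D))]

end Pool.Agent.Helper17.BC
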