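import Pool.Agent.Helper11.BC.Defs
import Pool.Agent.Helper17.BC.Seg

/-!
# Project BC, block GLOB: the function `gn n α β C'` and its properties

`GeoFacts` lists the facts of plane hyperbolic geometry which are used.
-/

set_option autoImplicit false

open scoped MatrixGroups UpperHalfPlane

namespace Pool.Agent.Helper17.BC

open Pool.Agent.Helper11.BC (G GP pos SameEnd Generic Sys Neck gam Ahead Behind)

/-- the facts of hyperbolic geometry used by the block GLOB -/
structure GeoFacts where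
  /-- the projection parameter of `g • ∞` on the line of `n`, cut to `[α, β]` -/
  prj : ℝ → ℝ → G → G → ℝ
  ahead : ∀ (α β b : ℝ) (n g : G), α < b → b ≤ β → b ≤ prj α β n g → Ahead n b g
  behind : ∀ (α β a : ℝ) (n g : G), α ≤ a → a < β → prj α β n g ≤ a → Behind n a g
  prj_cp : ∀ (α β α' β' : ℝ) (n g : G), α ≤ α' → α' ≤ β' → β' ≤ β →
    cp α' β' (prj α β n g) = prj α' β' n g
  prj_inv : ∀ (α β : ℝ) (h n g : G), prj α β (h * n) (h * g) = prj α β n g
  prj_close : ∀ C₀ : ℝ, ∃ K₀ : ℝ, ∀ (n n' : G) (α β α' β' : ℝ) (g : G), α ≤ β → α' ≤ β' →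
    dist (gam n α) (gam n' α') ≤ C₀ → dist (gam n β) (gam n' β') ≤ C₀ →
    |prj α β n g + (α' - α) - prj α' β' n' g| ≤ K₀
  gam_dist : ∀ (n : G) (a b : ℝ), dist (gam n a) (gam n b) = |a - b|
  fellow : ∀ C₀ : ℝ, ∃ K₀ : ℝ, ∀ (n n' : G) (α β α' β' : ℝ), α ≤ β → α' ≤ β' →
    dist (gam n α) (gam n' α') ≤ C₀ → dist (gam n β) (gam n' β') ≤ C₀ →
    ∀ x, 0 ≤ x → α + x ≤ β → α' + x ≤ β' → dist (gam n (α + x)) (gam n' (α' + x)) ≤ K₀
  /-- a frame of the line from `s` to `t` -/
  fr : ℍ → ℍ → G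
  fr_zero : ∀ s t : ℍ, gam (fr s t) 0 = s
  fr_dist : ∀ s t : ℍ, gam (fr s t) (dist s t) = t
  rev : ∀ n : G, ∃ n' : G, ∀ τ : ℝ, gam n' τ = gam n (-τ)
  centre : ∃ K₀ : ℝ, ∀ (s t u : ℍ) (n₁ n₂ n₃ : G), gam n₁ 0 = s → gam n₁ (dist s t) = t →
    gam n₂ 0 = t → gam n₂ (dist t u) = u → gam n₃ 0 = u → gam n₃ (dist u s) = s →
    ∃ (o : ℍ) (a b c : ℝ), 0 ≤ a ∧ a ≤ dist s t ∧ 0 ≤ b ∧ b ≤ dist t u ∧ 0 ≤ c ∧ c ≤ dist u s ∧
      dist o (gam n₁ a) ≤ K₀ ∧ dist o (gam n₂ b) ≤ K₀ ∧ dist o (gam n₃ c) ≤ K₀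

/-! ### alternating sums -/

theorem dl_eq {T : Type*} (Φ : List T → ℝ) (l : List T) : Helper11.BC.dl Φ l = dl Φ l := by
  induction l generalizing Φ with
  | nil => simp [Helper11.BC.dl, dl]
  | cons x l ih =>
    have h1 : Helper11.BC.dl Φ (x :: l) = Φ l - Helper11.BC.dl (fun D' => Φ (x :: D')) l := by
      unfold Helper11.BC.dl
      rw [List.length_cons, Finset.sum_range_succ', add_comm, sub_eq_add_neg,
        ← Finset.sum_neg_distrib]
      simp only [List.eraseIdx_cons_succ, List.eraseIdx_cons_zero, pow_zero, pow_succ,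
        smul_eq_mul, one_mul]
      congr 1
      refine Finset.sum_congr rfl fun i _ => ?_
      ring
    rw [h1, ih]
    rfl

theorem dl_bound {T : Type*} (Φ : List T → ℝ) (l : List T) {K : ℝ}
    (h : ∀ D' : List T, D'.length + 1 = l.length → D'.Sublist l → |Φ D'| ≤ K) :
    |dl Φ l| ≤ l.length * K := by
  induction l generalizing Φ with
  | nil => simp [dl]
  | cons x l ih =>
    simp only [dl]
    have h1 := h l (by simp) (List.sublist_cons_self x l)
    have h2 := ih (fun D' => Φ (x :: D')) fun D' h3 h4 => h (x :: D')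
      (by simp only [List.length_cons]; omega) (h4.cons_cons x)
    rw [List.length_cons]
    push_cast
    calc |Φ l - dl (fun D' => Φ (x :: D')) l| ≤ |Φ l| + |dl (fun D' => Φ (x :: D')) l| :=
          abs_sub _ _
      _ ≤ K + l.length * K := add_le_add h1 h2
      _ = (l.length + 1) * K := by ring

/-! ### marked lists -/

open Classical in
/-- the elements with the mark `true` -/
noncomputable def mks (D : List (G × Bool)) : Finset G := ((D.filter (·.2)).map Prod.fst).toFinset

theorem mem_mks {D : List (G × Bool)} {g : G} : g ∈ mks D ↔ (g, true) ∈ D := by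
  classical
  unfold mks
  simp

/-! ### elementary facts -/

theorem gam_mul (h n : G) (τ : ℝ) : gam (h * n) τ = h • gam n τ := by
  unfold gam
  rw [mul_smul]

theorem sameEnd_self (g : G) : SameEnd g g := by
  unfold SameEnd
  rw [inv_mul_cancel]
  simp

theorem gen_nodup {l : List G} (h : Generic l) : l.Nodup := by
  refine List.Pairwise.imp ?_ h
  rintro a b hab rfl
  exact hab (sameEnd_self a)

theorem gen_sublist {l l' : List G} (h : Generic l) (h' : l'.Sublist l) : Generic l' :=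
  List.Pairwise.sublist h' h

variable {N : ℕ} {Sy : Sys N}

open Classical in
/-- the function of one piece -/
noncomputable def Ph (K : Neck Sy) (n : G) (D : List (G × Bool)) (a b : ℝ) : ℝ :=
  if D.length + 1 = N then K.gt n (mks D) (D.map Prod.fst) (gam n a) (gam n b) else 0

theorem Ph_eq (K : Neck Sy) (n : G) {D : List (G × Bool)} (hD : D.length + 1 = N) (a b : ℝ) :
    Ph K n D a b = K.gt n (mks D) (D.map Prod.fst) (gam n a) (gam n b) := if_pos hD

theorem Ph_addI (K : Neck Sy) (n : G) : AddI (Ph K n) := by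
  intro D a b c _ _
  by_cases hD : D.length + 1 = N
  · rw [Ph_eq K n hD, Ph_eq K n hD, Ph_eq K n hD, K.gt_add]
    rwa [List.length_map]
  · simp only [Ph, if_neg hD, add_zero]

theorem Ph_growth (G0 : GeoFacts) (K : Neck Sy) (n : G) (D : List (G × Bool)) {a b : ℝ}
    (hab : a ≤ b) : |Ph K n D a b| ≤ K.K * (1 + (b - a)) := by
  by_cases hD : D.length + 1 = N
  · rw [Ph_eq K n hD]
    have h := K.gt_growth n (mks D) (D.map Prod.fst) (gam n a) (gam n b) (by rwa [List.length_map])
    rwa [G0.gam_dist, abs_sub_comm, abs_of_nonneg (sub_nonneg.2 hab)] at h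
  · simp only [Ph, if_neg hD, abs_zero]
    have := K.one_le_K
    have := sub_nonneg.2 hab
    positivity

/-- the function along the line of the frame `n` -/
noncomputable def gn (G0 : GeoFacts) (K : Neck Sy) (n : G) (α β : ℝ) (C : List G) : ℝ :=
  S (G0.prj α β n) (Ph K n) α β C

section

variable (G0 : GeoFacts) (K : Neck Sy)

theorem cp_prj {α β : ℝ} (h : α ≤ β) (n g : G) : cp α β (G0.prj α β n g) = G0.prj α β n g :=
  G0.prj_cp α β α β n g le_rfl h le_rfl

theorem gn_add (n : G) {α β γ : ℝ} (h1 : α ≤ β) (h2 : β ≤ γ) (C : List G) :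
    gn G0 K n α γ C = gn G0 K n α β C + gn G0 K n β γ C := by
  unfold gn
  rw [S_add (Ph_addI K n) h1 h2]
  congr 1
  · refine S_congr_cut (Ph_addI K n) h1 C fun c _ => ?_
    rw [G0.prj_cp α γ α β n c le_rfl h1 h2, cp_prj G0 h1]
  · refine S_congr_cut (Ph_addI K n) h2 C fun c _ => ?_
    rw [G0.prj_cp α γ β γ n c h1 h2 le_rfl, cp_prj G0 h2]

theorem gn_self (n : G) (α : ℝ) (C : List G) : gn G0 K n α α C = 0 :=
  S_self (Ph_addI K n) α C

theorem K_nonneg : 0 ≤ K.K := zero_le_one.trans K.one_le_K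

theorem gn_growth (n : G) {α β : ℝ} (h1 : α ≤ β) (C : List G) :
    |gn G0 K n α β C| ≤ 2 ^ C.length * (K.K * (1 + (β - α))) := by
  refine S_bound (by have := K_nonneg K; have := sub_nonneg.2 h1; positivity) h1 C
    (fun D a => (Ph_addI K n).self D a) fun D a b _ ha hab hb _ => ?_
  refine (Ph_growth G0 K n D hab.le).trans ?_
  exact mul_le_mul_of_nonneg_left (by linarith) (K_nonneg K)

theorem gn_neck (n : G) {α β : ℝ} (h1 : α ≤ β) (C : List G) (hC : Generic C)
    (hl : C.length = N) :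
    |Sy.F (C.map GP.int) (gam n α) (gam n β) - dl (fun C' => gn G0 K n α β C') C| ≤
      2 ^ N * K.K := by
  have e1 : Sy.F (C.map GP.int) (gam n α) (gam n β) =
      S (G0.prj α β n) (fun _ a b => Sy.F (C.map GP.int) (gam n a) (gam n b)) α β C :=
    (S_const (q := G0.prj α β n) (h := fun a b => Sy.F (C.map GP.int) (gam n a) (gam n b))
      (fun a b c _ _ => (Sy.F_add _ _ _ _ (by rwa [List.length_map])).symm) h1 C).symm
  have e2 : dl (fun C' => gn G0 K n α β C') C =
      S (G0.prj α β n) (fun D a b => dl (fun D' => Ph K n D' a b) D) α β C :=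
    (S_dl (Ph_addI K n) h1 C).symm
  have e4 : (2 : ℝ) ^ C.length * K.K = 2 ^ N * K.K := by rw [hl]
  rw [e1, e2, ← S_sub_fun, ← e4]
  refine S_bound (K_nonneg K) h1 C (fun D a => ?_) fun D a b hD ha hab hb hv => ?_
  · have h2 : Sy.F (C.map GP.int) (gam n a) (gam n a) = 0 := by
      have := Sy.F_add (C.map GP.int) (gam n a) (gam n a) (gam n a) (by rwa [List.length_map])
      linarith
    have h3 : dl (fun D' => Ph K n D' a a) D = 0 := by
      rw [dl_congr (Ψ := fun D' => 0 * Ph K n D' a a) fun D' _ _ => by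
        rw [(Ph_addI K n).self]; ring, dl_mul, zero_mul]
    rw [h2, h3, sub_zero]
  · subst hD
    have hnd : (D.map Prod.fst).Nodup := gen_nodup hC
    have e3 : dl (fun D' => Ph K n D' a b) D =
        dl (fun C' => K.gt n (mks D) C' (gam n a) (gam n b)) (D.map Prod.fst) := by
      rw [← dl_map Prod.fst (fun C' => K.gt n (mks D) C' (gam n a) (gam n b))]
      refine dl_congr fun D' h3 h4 => ?_
      have h5 : D'.length + 1 = N := by
        rw [h3, ← hl, List.length_map]
      rw [Ph_eq K n h5]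
      have h6 := K.gt_inv 1 n (mks D) (mks D') (D'.map Prod.fst) (gam n a) (gam n b) fun g hg => by
        obtain ⟨x, hx, rfl⟩ := List.mem_map.1 hg
        rw [one_mul, mem_mks, mem_mks]
        refine ⟨fun h => h4 h, fun h => ?_⟩
        have h7 := List.inj_on_of_nodup_map hnd (h4 hx) h rfl
        rw [← h7]
        exact hx
      rw [one_mul, one_smul, one_smul] at h6
      rw [← h6]
      congr 1
      simp
    rw [e3, ← dl_eq]
    refine K.neck n a b (mks D) (D.map Prod.fst) hab.le hC hl (fun g _ hg' => ?_)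
      fun g hg hg' => ?_
    · exact G0.ahead α β b n g (ha.trans_lt hab) hb ((hv _ (mem_mks.1 hg')).2 rfl)
    · obtain ⟨⟨g', m⟩, hx, rfl⟩ := List.mem_map.1 hg
      cases m with
      | true => exact absurd (mem_mks.2 hx) hg'
      | false => exact G0.behind α β a n g' ha (hab.trans_le hb) ((hv _ hx).1 rfl)

end

end Pool.Agent.Helper17.BC
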