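import Pool.Agent.Helper17.BC.Gn

/-!
# Project BC, block GLOB: invariance of `gn`, and independence of the frame up to a constant
-/

set_option autoImplicit false

open scoped MatrixGroups UpperHalfPlane

namespace Pool.Agent.Helper17.BC

open Pool.Agent.Helper11.BC (G GP pos SameEnd Generic Sys Neck gam Ahead Behind)

/-- sums over the pieces of a mapped list -/
theorem S_map {X Y : Type*} (f : X → Y) (q : Y → ℝ) (Φ : List (Y × Bool) → ℝ → ℝ → ℝ)
    (α β : ℝ) (C : List X) :
    S q Φ α β (C.map f) =
      S (fun x => q (f x)) (fun D => Φ (D.map fun x => (f x.1, x.2))) α β C := by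
  induction C generalizing Φ α β with
  | nil => rfl
  | cons c C ih =>
    simp only [S, List.map_cons]
    rw [ih, ih]

variable {N : ℕ} {Sy : Sys N} (G0 : GeoFacts) (K : Neck Sy)

theorem gn_inv (h n : G) (α β : ℝ) (C : List G) (hl : C.length + 1 = N) :
    gn G0 K (h * n) α β (C.map (h * ·)) = gn G0 K n α β C := by
  unfold gn
  rw [S_map]
  have e1 : (fun x => G0.prj α β (h * n) (h * x)) = G0.prj α β n := by
    funext x
    exact G0.prj_inv α β h n x
  rw [e1]
  refine S_congr_fun C fun D a b hD => ?_
  have h1 : D.length + 1 = N := by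
    rw [← hl, ← hD, List.length_map]
  rw [Ph_eq K n h1, Ph_eq K (h * n) (by rwa [List.length_map]), gam_mul, gam_mul]
  have h2 := K.gt_inv h n (mks D) (mks (D.map fun x => (h * x.1, x.2))) (D.map Prod.fst)
    (gam n a) (gam n b) fun g _ => by
      rw [mem_mks, mem_mks, List.mem_map]
      constructor
      · rintro ⟨x, hx, h3⟩
        have h4 := Prod.ext_iff.1 h3
        have h5 : x.1 = g := mul_left_cancel h4.1
        have h6 : x.2 = true := h4.2
        rw [← h5, ← h6]
        exact hx
      · intro hx
        exact ⟨(g, true), hx, rfl⟩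
  rw [← h2]
  congr 1
  simp [List.map_map, Function.comp_def]

include G0 in
/-- the length of a segment of the line -/
theorem len_eq {n : G} {α β : ℝ} (h : α ≤ β) : dist (gam n α) (gam n β) = β - α := by
  rw [G0.gam_dist, abs_sub_comm, abs_of_nonneg (sub_nonneg.2 h)]

theorem gn_close (C₀ : ℝ) : ∃ K₀ : ℝ, ∀ (n n' : G) (α β α' β' : ℝ) (C : List G),
    α ≤ β → α' ≤ β' → Generic C → C.length + 1 = N →
    dist (gam n α) (gam n' α') ≤ C₀ → dist (gam n β) (gam n' β') ≤ C₀ →
    |gn G0 K n α β C - gn G0 K n' α' β' C| ≤ K₀ := by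
  obtain ⟨R₁, hR₁⟩ := G0.prj_close C₀
  obtain ⟨R₂, hR₂⟩ := G0.fellow C₀
  obtain ⟨R₃, hR₃⟩ := K.close R₂
  set R : ℝ := max (2 * C₀) R₁ with hR
  set M : ℝ := max (4 * (K.K * (1 + R)) + R₃) (2 * (K.K * (1 + 2 * R))) with hM
  refine ⟨2 ^ (N - 1) * M, fun n n' α β α' β' C h1 h1' hC hl hα hβ => ?_⟩
  have hK := K_nonneg K
  have hl' : C.length = N - 1 := by omega
  have hC₀ : 0 ≤ C₀ := dist_nonneg.trans hα
  have hR0 : 0 ≤ R := (by linarith : (0 : ℝ) ≤ 2 * C₀).trans (le_max_left _ _)
  rw [← hl']
  -- the lengths of the two segments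
  have hlen : |(β - α) - (β' - α')| ≤ 2 * C₀ := by
    rw [← len_eq G0 h1 (n := n), ← len_eq G0 h1' (n := n')]
    have e1 := dist_triangle4 (gam n α) (gam n' α') (gam n' β') (gam n β)
    have e2 := dist_triangle4 (gam n' α') (gam n α) (gam n β) (gam n' β')
    rw [dist_comm (gam n' β') (gam n β)] at e1
    rw [dist_comm (gam n' α') (gam n α)] at e2
    rw [abs_le]
    constructor <;> linarith
  refine S_compare (δ := α' - α) (R := R) h1 h1' C ?_ ?_ ?_ ?_
  · rw [show α + (α' - α) - α' = 0 by ring, abs_zero]
    exact hR0
  · rw [show β + (α' - α) - β' = (β - α) - (β' - α') by ring]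
    exact hlen.trans (le_max_left _ _)
  · intro c _
    rw [cp_prj G0 h1, cp_prj G0 h1']
    exact (hR₁ n n' α β α' β' c h1 h1' hα hβ).trans (le_max_right _ _)
  · intro D a b a' b' hD ha hab hb ha' hab' hb' hra hrb hv hv'
    set δ : ℝ := α' - α with hδ
    have hra' := abs_le.1 hra
    have hrb' := abs_le.1 hrb
    rcases lt_or_ge (max a (a' - δ)) (min b (b' - δ)) with hcd | hcd
    · -- a common piece
      set c : ℝ := max a (a' - δ) with hc
      set d : ℝ := min b (b' - δ) with hd
      have hac : a ≤ c := le_max_left _ _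
      have hac' : a' ≤ c + δ := by have := le_max_right a (a' - δ); linarith
      have hdb : d ≤ b := min_le_left _ _
      have hdb' : d + δ ≤ b' := by have := min_le_right b (b' - δ); linarith
      have hca : c - a ≤ R := by
        rw [hc]
        rcases max_choice a (a' - δ) with h | h <;> rw [h] <;> linarith
      have hca' : c + δ - a' ≤ R := by
        rw [hc]
        rcases max_choice a (a' - δ) with h | h <;> rw [h] <;> linarith
      have hbd : b - d ≤ R := by
        rw [hd]
        rcases min_choice b (b' - δ) with h | h <;> rw [h] <;> linarith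
      have hbd' : b' - (d + δ) ≤ R := by
        rw [hd]
        rcases min_choice b (b' - δ) with h | h <;> rw [h] <;> linarith
      have hab0 : a < b := hac.trans_lt (hcd.trans_le hdb)
      have hab0' : a' < b' := by linarith
      have hv := hv hab0
      have hv' := hv' hab0'
      have hD1 : D.length + 1 = N := by rw [← hl, ← hD, List.length_map]
      have e1 : Ph K n D a b = Ph K n D a c + Ph K n D c d + Ph K n D d b := by
        rw [Ph_addI K n D a d b (by linarith) (by linarith),
          Ph_addI K n D a c d (by linarith) (by linarith)]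
      have e2 : Ph K n' D a' b' = Ph K n' D a' (c + δ) + Ph K n' D (c + δ) (d + δ) +
          Ph K n' D (d + δ) b' := by
        rw [Ph_addI K n' D a' (d + δ) b' (by linarith) (by linarith),
          Ph_addI K n' D a' (c + δ) (d + δ) (by linarith) (by linarith)]
      have e3 : |Ph K n D c d - Ph K n' D (c + δ) (d + δ)| ≤ R₃ := by
        rw [Ph_eq K n hD1, Ph_eq K n' hD1]
        have f1 := hR₂ n n' α β α' β' h1 h1' hα hβ (c - α) (by linarith) (by linarith)
          (by linarith)
        have f2 := hR₂ n n' α β α' β' h1 h1' hα hβ (d - α) (by linarith) (by linarith)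
          (by linarith)
        rw [show α + (c - α) = c by ring, show α' + (c - α) = c + δ by rw [hδ]; ring] at f1
        rw [show α + (d - α) = d by ring, show α' + (d - α) = d + δ by rw [hδ]; ring] at f2
        refine hR₃ n n' c d (c + δ) (d + δ) (mks D) (D.map Prod.fst) hcd.le (by linarith)
          (by rw [hD]; exact hC) (by rwa [List.length_map]) (fun g _ hg' => ?_)
          (fun g hg hg' => ?_) f1 f2
        · exact ⟨G0.ahead α β d n g (by linarith) (by linarith)
            (hdb.trans ((hv _ (mem_mks.1 hg')).2 rfl)),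
            G0.ahead α' β' (d + δ) n' g (by linarith) (by linarith)
            (hdb'.trans ((hv' _ (mem_mks.1 hg')).2 rfl))⟩
        · obtain ⟨⟨g', m⟩, hx, rfl⟩ := List.mem_map.1 hg
          cases m with
          | true => exact absurd (mem_mks.2 hx) hg'
          | false =>
            exact ⟨G0.behind α β c n g' (by linarith) (by linarith)
              (((hv _ hx).1 rfl).trans hac),
              G0.behind α' β' (c + δ) n' g' (by linarith) (by linarith)
              (((hv' _ hx).1 rfl).trans hac')⟩
      have g1 := Ph_growth G0 K n D hac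
      have g2 := Ph_growth G0 K n D hdb
      have g3 := Ph_growth G0 K n' D hac'
      have g4 := Ph_growth G0 K n' D hdb'
      have k1 : K.K * (1 + (c - a)) ≤ K.K * (1 + R) :=
        mul_le_mul_of_nonneg_left (by linarith) hK
      have k2 : K.K * (1 + (b - d)) ≤ K.K * (1 + R) :=
        mul_le_mul_of_nonneg_left (by linarith) hK
      have k3 : K.K * (1 + (c + δ - a')) ≤ K.K * (1 + R) :=
        mul_le_mul_of_nonneg_left (by linarith) hK
      have k4 : K.K * (1 + (b' - (d + δ))) ≤ K.K * (1 + R) :=
        mul_le_mul_of_nonneg_left (by linarith) hK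
      refine le_trans ?_ (le_max_left _ _)
      rw [e1, e2]
      have g1 := abs_le.1 g1
      have g2 := abs_le.1 g2
      have g3 := abs_le.1 g3
      have g4 := abs_le.1 g4
      have e3 := abs_le.1 e3
      rw [abs_le]
      constructor <;> linarith
    · -- both pieces are short
      have s1 : b - a ≤ 2 * R := by
        rcases max_choice a (a' - δ) with h | h <;> rcases min_choice b (b' - δ) with h' | h' <;>
          rw [h, h'] at hcd <;> linarith
      have s2 : b' - a' ≤ 2 * R := by
        rcases max_choice a (a' - δ) with h | h <;> rcases min_choice b (b' - δ) with h' | h' <;>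
          rw [h, h'] at hcd <;> linarith
      have g1 := abs_le.1 (Ph_growth G0 K n D hab)
      have g3 := abs_le.1 (Ph_growth G0 K n' D hab')
      have k1 : K.K * (1 + (b - a)) ≤ K.K * (1 + 2 * R) :=
        mul_le_mul_of_nonneg_left (by linarith) hK
      have k2 : K.K * (1 + (b' - a')) ≤ K.K * (1 + 2 * R) :=
        mul_le_mul_of_nonneg_left (by linarith) hK
      refine le_trans ?_ (le_max_right _ _)
      rw [abs_le]
      constructor <;> linarith

end Pool.Agent.Helper17.BC
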