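import Pool.Agent.Helper17.BC.Close

/-!
# Project BC, block GLOB: the function `gg C' s t`
-/

set_option autoImplicit false

open scoped MatrixGroups UpperHalfPlane

namespace Pool.Agent.Helper17.BC

open Pool.Agent.Helper11.BC (G GP pos SameEnd Generic Sys Neck gam Ahead Behind)

variable {N : ℕ} {Sy : Sys N} (G0 : GeoFacts) (K : Neck Sy)

/-- the function along the segment from `s` to `t` -/
noncomputable def g1 (s t : ℍ) (C : List G) : ℝ := gn G0 K (G0.fr s t) 0 (dist s t) C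

/-- the antisymmetric version -/
noncomputable def gg (C : List G) (s t : ℍ) : ℝ := (g1 G0 K s t C - g1 G0 K t s C) / 2

theorem gg_anti (C : List G) (s t : ℍ) : gg G0 K C t s = -gg G0 K C s t := by
  unfold gg
  ring

theorem gg_neck (C : List G) (hC : Generic C) (hl : C.length = N) (s t : ℍ) :
    |Sy.F (C.map GP.int) s t - dl (fun C' => gg G0 K C' s t) C| ≤ 2 ^ N * K.K := by
  have e1 : ∀ s t : ℍ, |Sy.F (C.map GP.int) s t - dl (fun C' => g1 G0 K s t C') C| ≤
      2 ^ N * K.K := by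
    intro s t
    have h := gn_neck G0 K (G0.fr s t) (dist_nonneg : 0 ≤ dist s t) C hC hl
    rwa [G0.fr_zero, G0.fr_dist] at h
  have e2 : dl (fun C' => gg G0 K C' s t) C =
      1 / 2 * (dl (fun C' => g1 G0 K s t C') C - dl (fun C' => g1 G0 K t s C') C) := by
    rw [← dl_sub, ← dl_mul]
    refine dl_congr fun D' _ _ => ?_
    unfold gg
    ring
  have h2 := Sy.F_add (C.map GP.int) s t s (by rwa [List.length_map])
  have h3 := Sy.F_add (C.map GP.int) s s s (by rwa [List.length_map])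
  have h4 := abs_le.1 (e1 s t)
  have h5 := abs_le.1 (e1 t s)
  rw [e2, abs_le]
  constructor <;> linarith

theorem g1_close (C₀ : ℝ) : ∃ K₀ : ℝ, ∀ (n : G) (α β : ℝ) (s t : ℍ) (C : List G),
    α ≤ β → Generic C → C.length + 1 = N → dist (gam n α) s ≤ C₀ → dist (gam n β) t ≤ C₀ →
    |gn G0 K n α β C - g1 G0 K s t C| ≤ K₀ := by
  obtain ⟨K₀, h⟩ := gn_close G0 K C₀
  refine ⟨K₀, fun n α β s t C h1 hC hl hs ht => ?_⟩
  exact h n (G0.fr s t) α β 0 (dist s t) C h1 dist_nonneg hC hl (by rwa [G0.fr_zero])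
    (by rwa [G0.fr_dist])

/-- the function is invariant up to a constant -/
theorem gg_inv : ∃ K₀ : ℝ, ∀ (h : G) (s t : ℍ) (C : List G), Generic C → C.length + 1 = N →
    |gg G0 K (C.map (h * ·)) (h • s) (h • t) - gg G0 K C s t| ≤ K₀ := by
  obtain ⟨K₀, hK₀⟩ := gn_close G0 K 0
  have hgen : ∀ (h : G) (C : List G), Generic C → Generic (C.map (h * ·)) := by
    intro h C hC
    unfold Generic at *
    rw [List.pairwise_map]
    refine hC.imp ?_
    intro a b hab
    unfold SameEnd at *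
    rwa [mul_inv_rev, mul_assoc, inv_mul_cancel_left]
  have key : ∀ (h : G) (s t : ℍ) (C : List G), Generic C → C.length + 1 = N →
      |g1 G0 K (h • s) (h • t) (C.map (h * ·)) - g1 G0 K s t C| ≤ K₀ := by
    intro h s t C hC hl
    unfold g1
    have e0 : dist (h • s) (h • t) = dist s t := by
      exact dist_smul h s t
    rw [← gn_inv G0 K h (G0.fr s t) 0 (dist s t) C hl]
    refine hK₀ _ _ 0 _ 0 _ _ dist_nonneg dist_nonneg (hgen h C hC) (by rwa [List.length_map]) ?_ ?_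
    · rw [G0.fr_zero, gam_mul, G0.fr_zero, dist_self]
    · rw [G0.fr_dist, gam_mul, G0.fr_dist, dist_self]
  refine ⟨K₀, fun h s t C hC hl => ?_⟩
  have h1 := abs_le.1 (key h s t C hC hl)
  have h2 := abs_le.1 (key h t s C hC hl)
  unfold gg
  rw [abs_le]
  constructor <;> linarith

/-- cutting a segment, one direction -/
theorem g1_split (C₀ : ℝ) : ∃ K₀ : ℝ, ∀ (s t o : ℍ) (a : ℝ) (C : List G),
    0 ≤ a → a ≤ dist s t → Generic C → C.length + 1 = N → dist (gam (G0.fr s t) a) o ≤ C₀ →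
    |g1 G0 K s t C - g1 G0 K s o C - g1 G0 K o t C| ≤ K₀ := by
  obtain ⟨K₀, hK₀⟩ := g1_close G0 K (max C₀ 0)
  refine ⟨2 * K₀, fun s t o a C ha ha' hC hl ho => ?_⟩
  have e1 : g1 G0 K s t C = gn G0 K (G0.fr s t) 0 a C + gn G0 K (G0.fr s t) a (dist s t) C :=
    gn_add G0 K _ ha ha' C
  have h1 := abs_le.1 (hK₀ (G0.fr s t) 0 a s o C ha hC hl
    (by rw [G0.fr_zero, dist_self]; exact le_max_right _ _) (ho.trans (le_max_left _ _)))
  have h2 := abs_le.1 (hK₀ (G0.fr s t) a (dist s t) o t C ha' hC hl (ho.trans (le_max_left _ _))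
    (by rw [G0.fr_dist, dist_self]; exact le_max_right _ _))
  rw [e1, abs_le]
  constructor <;> linarith

/-- cutting a segment -/
theorem gg_split (C₀ : ℝ) : ∃ K₀ : ℝ, ∀ (s t o : ℍ) (a : ℝ) (C : List G),
    0 ≤ a → a ≤ dist s t → Generic C → C.length + 1 = N → dist (gam (G0.fr s t) a) o ≤ C₀ →
    |gg G0 K C s t - gg G0 K C s o - gg G0 K C o t| ≤ K₀ := by
  obtain ⟨R, hR⟩ := G0.fellow 0
  obtain ⟨K₁, hK₁⟩ := g1_split G0 K C₀
  obtain ⟨K₂, hK₂⟩ := g1_split G0 K (R + C₀)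
  refine ⟨(K₁ + K₂) / 2, fun s t o a C ha ha' hC hl ho => ?_⟩
  obtain ⟨n', hn'⟩ := G0.rev (G0.fr s t)
  have h1 := abs_le.1 (hK₁ s t o a C ha ha' hC hl ho)
  have h2 : dist (gam (G0.fr t s) (dist t s - a)) o ≤ R + C₀ := by
    have h3 := hR (G0.fr t s) n' 0 (dist t s) (-(dist t s)) 0 dist_nonneg
      (by have := dist_nonneg (x := t) (y := s); linarith)
      (by rw [hn', G0.fr_zero, neg_neg, dist_comm t s, G0.fr_dist, dist_self])
      (by rw [hn', G0.fr_dist, neg_zero, G0.fr_zero, dist_self]) (dist t s - a)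
      (by rw [dist_comm t s]; linarith) (by linarith) (by linarith)
    rw [zero_add, show -(dist t s) + (dist t s - a) = -a by ring, hn', neg_neg] at h3
    exact (dist_triangle _ _ _).trans (add_le_add h3 ho)
  have h4 := abs_le.1 (hK₂ t s o (dist t s - a) C (by rw [dist_comm t s]; linarith)
    (by linarith) hC hl h2)
  unfold gg
  rw [abs_le]
  constructor <;> linarith

/-- triangles -/
theorem gg_tri : ∃ K₀ : ℝ, ∀ (s t u : ℍ) (C : List G), Generic C → C.length + 1 = N →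
    |gg G0 K C s t + gg G0 K C t u + gg G0 K C u s| ≤ K₀ := by
  obtain ⟨R, hR⟩ := G0.centre
  obtain ⟨K₁, hK₁⟩ := gg_split G0 K R
  refine ⟨3 * K₁, fun s t u C hC hl => ?_⟩
  obtain ⟨o, a, b, c, ha, ha', hb, hb', hc, hc', h1, h2, h3⟩ := hR s t u (G0.fr s t) (G0.fr t u)
    (G0.fr u s) (G0.fr_zero _ _) (G0.fr_dist _ _) (G0.fr_zero _ _) (G0.fr_dist _ _)
    (G0.fr_zero _ _) (G0.fr_dist _ _)
  have e1 := abs_le.1 (hK₁ s t o a C ha ha' hC hl (by rwa [dist_comm]))
  have e2 := abs_le.1 (hK₁ t u o b C hb hb' hC hl (by rwa [dist_comm]))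
  have e3 := abs_le.1 (hK₁ u s o c C hc hc' hC hl (by rwa [dist_comm]))
  have f1 := gg_anti G0 K C s o
  have f2 := gg_anti G0 K C t o
  have f3 := gg_anti G0 K C u o
  rw [abs_le]
  constructor <;> linarith

end Pool.Agent.Helper17.BC
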